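import Pool.Agent.H38.SE.TarB
import Pool.Agent.H20.SF.FM

set_option autoImplicit false

open Ordinal Order Set
open scoped ZFSet

namespace SE

open SF

namespace H68

theorem tm_rst {f g : (V → Prop) → (ℕ → V) → V} (hf : Tm ZFm f) (hg : Tm ZFm g) :
    Tm ZFm (fun M v => rst (f M v) (g M v)) := by
  have h : Tm ZFm (fun M v => rst (v 0) (v 1)) :=
    Tm.sep (R := fun _ v => fst (v 0) ∈ v 1) (Dfb.mem (Tm.fst (Tm.var 0)) (Tm.var 1)) (Tm.var 1)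
  exact Tm.at2 (F := fun _ x y => rst x y) h hf hg

theorem tm_gs {f g : (V → Prop) → (ℕ → V) → V} (hf : Tm ZFm f) (hg : Tm ZFm g) :
    Tm ZFm (fun M v => gs (f M v) (g M v)) := by
  have h : Tm ZFm (fun M v => gs (v 0) (v 1)) :=
    Tm.sep (R := fun _ v => dm (v 0) ⊆ v 2) (Dfb.subset (Tm.dm (Tm.var 0)) (Tm.var 2)) (Tm.var 0)
  exact Tm.at2 (F := fun _ x y => gs x y) h hf hg

theorem mem_gs {G s p : V} : p ∈ gs G s ↔ p ∈ G ∧ dm p ⊆ s := ZFSet.mem_sep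

/-- the set of the conditions whose restriction is in `E` -/
theorem pre_mem {M : V → Prop} (k : ZFm M) {P s E : V} (hP : M P) (hs : M s) (hE : M E) :
    M (P.sep fun r => rst s r ∈ E) := by
  have h : Tm ZFm (fun M v => (v 0).sep fun r => rst (v 1) r ∈ v 2) :=
    Tm.sep (R := fun _ v => rst (v 2) (v 0) ∈ v 3)
      (Dfb.mem (tm_rst (Tm.var 2) (Tm.var 0)) (Tm.var 3)) (Tm.var 0)
  exact h.1 M k (cons P (cons s (cons E fun _ => E)))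
    (In.cons (In.cons (In.cons (fun _ => hE) hE) hs) hP)

end H68

open H68

theorem pf_BL : T_BC → T_BD → T_BF → T_BJ → T_BL := by
  intro BC BD BF BJ D hD ρ G hNρ hc hG
  obtain ⟨-, -, -, hPN, hJ⟩ := BJ D hD
  obtain ⟨⟨hZ, hNW, hWG, -, -⟩, ⟨hGP, h0G, hup, hjn, hrs⟩, hden⟩ := (hJ ρ hNρ hc).2 G hG
  obtain ⟨-, -, -, hmemP, hrst, hrr, hrr', -⟩ := BC
  obtain ⟨-, hchg, hrstP, hrefl, -, hLe, hOdr, -⟩ := BD
  have hkN : ZFm D.N := hD.zfc.toZFm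
  have hFF : ∀ p ∈ G, FF p := fun p hp => ((hmemP D.L ρ p).1 (hGP hp)).1
  have hdm : ∀ p ∈ G, dm p ⊆ ρ := fun p hp => ((hmemP D.L ρ p).1 (hGP hp)).2.1
  refine ⟨?_, fun s hNs hs ht => ?_⟩
  · ext p
    rw [mem_gs]
    exact ⟨fun h => h.1, fun h => ⟨h, hdm p h⟩⟩
  have hdms : ∀ p ∈ G, dm (rst s p) ⊆ s := by
    intro p hp i hi
    exact (((hrst s p (hFF p hp)).2.1 i).1 hi).2
  have hself : ∀ p ∈ G, dm p ⊆ s → rst s p = p := fun p hp h => (hrst s p (hFF p hp)).2.2.2 h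
  have hmem : ∀ p ∈ G, rst s p ∈ gs G s := fun p hp => mem_gs.2 ⟨hrs s ht p hp, hdms p hp⟩
  have hcond : ∀ p ∈ gs G s, p ∈ Pos D.L s := by
    intro p hp
    obtain ⟨h1, h2⟩ := mem_gs.1 hp
    exact hchg D.L ρ s p (hGP h1) h2
  have hgsub : gs G s ⊆ G := fun p hp => (mem_gs.1 hp).1
  refine ⟨⟨⟨hcond, ⟨rst s ∅, hmem ∅ h0G⟩, ?_, ?_⟩, ?_⟩, hgsub, ?_, fun p => mem_gs, hmem, ?_, ?_⟩
  · intro p hp q hpq
    obtain ⟨-, hq, hle⟩ := (hOdr D.L s q p).1 hpq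
    have hqd : dm q ⊆ s := ((hmemP D.L s q).1 hq).2.1
    exact mem_gs.2 ⟨hup p (hgsub hp) q (hchg D.L s ρ q hq fun _ h => hs (hqd h)) hle, hqd⟩
  · intro p hp q hq
    obtain ⟨-, h1, h2, h3⟩ := hjn p (hgsub hp) q (hgsub hq)
    have h4 := hmem _ h1
    refine ⟨_, h4, ?_, ?_⟩
    · refine (hOdr D.L s p _).2 ⟨hcond _ h4, hcond _ hp, ?_⟩
      have h5 := hLe s _ _ (hFF _ (hgsub hp)) (hFF _ h1) h3
      rwa [hself p (hgsub hp) (mem_gs.1 hp).2] at h5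
    · refine (hOdr D.L s q _).2 ⟨hcond _ h4, hcond _ hq, ?_⟩
      have h5 := hLe s _ _ (hFF _ (hgsub hq)) (hFF _ h1) h2
      rwa [hself q (hgsub hq) (mem_gs.1 hq).2] at h5
  · intro E hE hdE
    have hX : D.N ((D.P ρ).sep fun r => rst s r ∈ E) := pre_mem hkN (hPN ρ hNρ).1 hNs hE
    obtain ⟨r, hrG, hrX, -⟩ := hden _ ∅ hX h0G (by
      intro q hq _
      have h1 := (hrstP D.L ρ s q hq fun i hi _ => ht i hi).1
      obtain ⟨d, hdE', hdle⟩ := hdE.2 _ h1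
      obtain ⟨hdP, -, hle⟩ := (hOdr D.L s _ d).1 hdle
      obtain ⟨-, h2, -, h3, h4, -⟩ := BF.1 D.L ρ s q d hc hs ht hq hdP hle
      exact ⟨jn d q, ZFSet.mem_sep.2 ⟨h2, by rw [h4]; exact hdE'⟩, h2, h3⟩)
    exact ⟨rst s r, hmem r hrG, (ZFSet.mem_sep.1 hrX).2⟩
  · intro x hx
    have hkW : ZFm (D.W G) := hZ.toZFm
    refine SF.H20.fn D.N (D.W G) (gs G s) hkW hNW ?_ x hx
    have h1 := (tm_gs (Tm.var 0) (Tm.var 1)).1 (D.W G) hkW (cons G (cons s fun _ => G))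
      (In.cons (In.cons (fun _ => hWG) (hNW s hNs)) hWG)
    exact h1
  · intro p hp
    exact ⟨p, hgsub hp, (hself p (hgsub hp) (mem_gs.1 hp).2).symm⟩
  · intro s' hs'
    ext p
    rw [mem_gs, mem_gs, mem_gs]
    exact ⟨fun h => ⟨h.1.1, h.2⟩, fun h => ⟨⟨h.1, fun _ hx => hs' (h.2 hx)⟩, h.2⟩⟩

end SE
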