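import Pool.Agent.H38.SE.TarB

set_option autoImplicit false

open Ordinal Order Set
open scoped ZFSet

namespace SE

open SF

namespace BOaux

theorem mem_nS {m n : ℕ} : nS m ∈ nS n ↔ m < n := by
  unfold nS
  rw [Ordinal.mem_toZFSet_iff]
  constructor
  · rintro ⟨a, ha, h⟩
    have h2 : a = (m : Ordinal.{0}) := Ordinal.toZFSet_injective h
    rw [h2] at ha
    exact_mod_cast ha
  · intro h
    exact ⟨m, by exact_mod_cast h, rfl⟩

theorem lt_of_mem {x : V} {n : ℕ} (h : x ∈ nS n) : ∃ m < n, x = nS m := by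
  induction n with
  | zero =>
    rw [nS_zero] at h
    exact absurd h (ZFSet.notMem_empty x)
  | succ n ih =>
    rw [nS_succ, ZFSet.mem_insert_iff] at h
    rcases h with h | h
    · exact ⟨n, Nat.lt_succ_self n, h⟩
    · obtain ⟨m, hm, h2⟩ := ih h
      exact ⟨m, Nat.lt_succ_of_lt hm, h2⟩

theorem dm_empty : dm (∅ : V) = ∅ := by
  ext x
  rw [mem_dm]
  constructor
  · rintro ⟨y, hy⟩
    exact absurd hy (ZFSet.notMem_empty _)
  · intro h
    exact absurd h (ZFSet.notMem_empty x)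

/-- definition by cases -/
noncomputable def ci (P : Prop) (x y : V) : V := open Classical in if P then x else y

theorem ci_pos {P : Prop} (x y : V) (h : P) : ci P x y = x := if_pos h

theorem ci_neg {P : Prop} (x y : V) (h : ¬ P) : ci P x y = y := if_neg h

/-- a function defined by cases -/
theorem tm_ite {P : (V → Prop) → (ℕ → V) → Prop} {f g : (V → Prop) → (ℕ → V) → V}
    (hP : Dfb ZFm P) (hf : Tm ZFm f) (hg : Tm ZFm g) :
    Tm ZFm (fun M v => ci (P M v) (f M v) (g M v)) := by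
  refine Tm.of_graph (R := fun M v => (P M (fun i => v (i + 1)) ∧ v 0 = f M (fun i => v (i + 1))) ∨
    (¬ P M (fun i => v (i + 1)) ∧ v 0 = g M (fun i => v (i + 1)))) ?_ ?_ ?_
  · intro M k v hv
    by_cases h : P M v
    · rw [ci_pos _ _ h]; exact hf.1 M k v hv
    · rw [ci_neg _ _ h]; exact hg.1 M k v hv
  · exact ((hP.rn (fun i => i + 1)).and (Dfb.eq (Tm.var 0) (hf.rn (fun i => i + 1)))).or
      ((hP.rn (fun i => i + 1)).not.and (Dfb.eq (Tm.var 0) (hg.rn (fun i => i + 1))))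
  · intro M k v hv x hx
    change (P M v ∧ x = f M v) ∨ (¬ P M v ∧ x = g M v) ↔ _
    by_cases h : P M v
    · rw [ci_pos _ _ h]
      exact ⟨fun h1 => h1.elim (fun h2 => h2.2) (fun h2 => absurd h h2.1), fun h1 => Or.inl ⟨h, h1⟩⟩
    · rw [ci_neg _ _ h]
      exact ⟨fun h1 => h1.elim (fun h2 => absurd h2.1 h) (fun h2 => h2.2), fun h1 => Or.inr ⟨h, h1⟩⟩

/-- full names of reals given by definable functions -/
theorem full (BJ : T_BJ) (BN : T_BN) {D : Cx} (hD : D.Ok) {ρ : V}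
    (hN : D.N ρ) (hc : Cld D.L ρ) {f : (V → Prop) → (ℕ → V) → V} (hf : Tm ZFm f) {v : ℕ → V}
    (hv : In D.N v) (hR : ∀ G, D.Gn ρ G → Rl (f (D.W G) (cons G v))) :
    ∃ Y, D.N Y ∧ Nam D.L ρ Y ∧ ∀ G, D.Gn ρ G → ev G Y = f (D.W G) (cons G v) := by
  obtain ⟨-, -, -, -, hJ⟩ := BJ D hD
  have hIn : ∀ G, D.Gn ρ G → ZFm (D.W G) ∧ In (D.W G) (cons G v) := by
    intro G hG
    obtain ⟨⟨hZ, hNW, hWG, -, -⟩, -, -⟩ := (hJ ρ hN hc).2 G hG
    exact ⟨hZ.toZFm, In.cons (fun i => hNW _ (hv i)) hWG⟩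
  obtain ⟨Y, hY, hYn, hYe⟩ := (BN D hD ρ hN hc).2
    (fun M w => w 0 = f M (fun i => w (i + 1))) hf.2 v hv (by
      intro G hG
      obtain ⟨hk, hi⟩ := hIn G hG
      exact ⟨f (D.W G) (cons G v), hf.1 _ hk _ hi, hR G hG, fun y _ _ => Iff.rfl⟩)
  exact ⟨Y, hY, hYn, fun G hG => hYe G hG⟩

end BOaux

open BOaux

theorem pf_BO : T_AF → T_AG → T_AH → T_AI → T_BA → T_BBa → T_BBb → T_BC → T_BD → T_BH → T_BI →
    T_BJ → T_BK → T_BN → T_BO := by
  intro AF AG AH AI BA BBa BBb BC BD BH BI BJ BK BN D hD ρ hN hc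
  obtain ⟨tRl, -, tprl, tkc, -, -, -, -⟩ := AI
  obtain ⟨-, -, -, -, tev, -, -, -, -, tcn⟩ := BBb
  obtain ⟨-, -, -, -, -, -, -, -, -, -, -, -, tPos, -, -⟩ := BBa
  obtain ⟨hTr, -, -⟩ := BA.2.2.2.2.2.2 D.L ρ hc
  have hkN : ZFm D.N := hD.zfc.toZFm
  have hNL : D.N D.L := (BJ D hD).1
  have hEv : ∀ Y, D.N Y → Nam D.L ρ Y → ∀ G, D.Gn ρ G → Rl (ev G Y) := fun Y h1 h2 G hG =>
    ((BK D hD ρ G hN hc hG).1 ρ Y hN (fun _ h => h) hTr h1 h2).1
  refine ⟨?_, ?_, ?_, ?_, ?_, ?_⟩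
  · -- (1)
    intro τ hτ
    have hf : Tm ZFm (fun _ v => ci (Rl (val (v 0) (v 1))) (val (v 0) (v 1)) (kc 0)) :=
      tm_ite (P := fun _ v => Rl (val (v 0) (v 1)))
        (Dfb.at1 (P := fun _ x => Rl x) tRl (Tm.val (Tm.var 0) (Tm.var 1)))
        (Tm.val (Tm.var 0) (Tm.var 1)) (tkc 0)
    obtain ⟨Y, h1, h2, h3⟩ := full BJ BN hD hN hc hf (v := fun _ => τ) (fun _ => hτ) (by
      intro G hG
      change Rl (ci (Rl (val G τ)) (val G τ) (kc 0))
      by_cases h : Rl (val G τ)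
      · rw [ci_pos _ _ h]; exact h
      · rw [ci_neg _ _ h]; exact (AH.2.2.2.1 0).1)
    refine ⟨Y, h1, h2, fun G hG => ⟨fun h => ?_, fun h => ?_⟩⟩
    · exact (h3 G hG).trans (ci_pos (val G τ) (kc 0) h)
    · exact (h3 G hG).trans (ci_neg (val G τ) (kc 0) h)
  · -- (2)
    intro Y1 Y2 O hN1 hN2 hNO hY1 hY2
    have hP : Dfb ZFm (fun _ v => ∃ p ∈ v 0, p ∈ v 3) :=
      Dfb.bex (R := fun _ v => v 0 ∈ v 4) ktr_zfm (Tm.var 0) (Dfb.mem (Tm.var 0) (Tm.var 4))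
    have hf : Tm ZFm (fun _ v => ci (∃ p ∈ v 0, p ∈ v 3) (ev (v 0) (v 1)) (ev (v 0) (v 2))) :=
      tm_ite (P := fun _ v => ∃ p ∈ v 0, p ∈ v 3) hP
        (Tm.at2 (F := fun _ x y => ev x y) tev (Tm.var 0) (Tm.var 1))
        (Tm.at2 (F := fun _ x y => ev x y) tev (Tm.var 0) (Tm.var 2))
    obtain ⟨Y, h1, h2, h3⟩ := full BJ BN hD hN hc hf (v := cons Y1 (cons Y2 fun _ => O))
      (In.cons (In.cons (fun _ => hNO) hN2) hN1) (by
      intro G hG
      change Rl (ci (∃ p ∈ G, p ∈ O) (ev G Y1) (ev G Y2))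
      by_cases h : ∃ p ∈ G, p ∈ O
      · rw [ci_pos _ _ h]; exact hEv Y1 hN1 hY1 G hG
      · rw [ci_neg _ _ h]; exact hEv Y2 hN2 hY2 G hG)
    refine ⟨Y, h1, h2, fun G hG => ⟨fun h => ?_, fun h => ?_⟩⟩
    · exact (h3 G hG).trans (ci_pos (ev G Y1) (ev G Y2) h)
    · exact (h3 G hG).trans (ci_neg (ev G Y1) (ev G Y2) h)
  · -- (3)
    intro Y1 Y2 hN1 hN2 hY1 hY2
    have hf : Tm ZFm (fun _ v => prl (ev (v 0) (v 1)) (ev (v 0) (v 2))) :=
      Tm.at2 (F := fun _ x y => prl x y) tprl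
        (Tm.at2 (F := fun _ x y => ev x y) tev (Tm.var 0) (Tm.var 1))
        (Tm.at2 (F := fun _ x y => ev x y) tev (Tm.var 0) (Tm.var 2))
    obtain ⟨Y, h1, h2, h3⟩ := full BJ BN hD hN hc hf (v := cons Y1 fun _ => Y2)
      (In.cons (fun _ => hN2) hN1) (by
      intro G hG
      exact (AH.1 (ev G Y1) (ev G Y2) (hEv Y1 hN1 hY1 G hG) (hEv Y2 hN2 hY2 G hG)).1)
    exact ⟨Y, h1, h2, fun G hG => h3 G hG⟩
  · -- (4)
    intro e
    obtain ⟨hke, -⟩ := AH.2.2.2.1 e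
    have hsb : ∀ b ∈ sq, b ⊆ kc e → ∃ n : ℕ, Sq n b ∧ dm b = nS n ∧ b = rs (kc e) (nS n) := by
      intro b hb hbe
      obtain ⟨n, hn⟩ := (AF.1 b).1 hb
      exact ⟨n, hn, (AF.2.2.2.2.1 n b hn).2.2.1, (AG.2.1 _ n b hke hn).1 hbe⟩
    have hmem : ∀ q b, ZFSet.pair q b ∈ knm D.L ρ e ↔ q ∈ Pos D.L ρ ∧ b ∈ sq ∧ b ⊆ kc e := by
      intro q b
      unfold knm
      rw [ZFSet.mem_sep, ZFSet.pair_mem_prod, snd_pair, and_assoc]
    have hrs : ∀ n : ℕ, rs (kc e) (nS n) ∈ sq ∧ rs (kc e) (nS n) ⊆ kc e := fun n =>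
      ⟨(AF.1 _).2 ⟨n, ((AG.1 _ hke).2.2.1 n).2.1⟩, ((AG.1 _ hke).2.2.1 n).2.2.1⟩
    have hNm : Nam D.L ρ (knm D.L ρ e) := by
      refine ⟨?_, ?_, ?_, ?_, ?_, ?_⟩
      · intro z hz
        obtain ⟨q, hq, b, hb, hz'⟩ := ZFSet.mem_prod.1 (ZFSet.mem_sep.1 hz).1
        exact ⟨q, hq, b, hb, hz'⟩
      · intro q b hqb q' hq' _
        obtain ⟨-, h2, h3⟩ := (hmem q b).1 hqb
        exact (hmem q' b).2 ⟨hq', h2, h3⟩
      · intro n hn q hq
        obtain ⟨m, rfl⟩ := mem_om.1 hn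
        refine ⟨q, hq, (BD.2.2.2.1 D.L ρ q hq).1, rs (kc e) (nS m), ?_, ?_⟩
        · exact (AF.2.2.2.2.1 m _ ((AG.1 _ hke).2.2.1 m).2.1).2.2.1
        · exact (hmem q _).2 ⟨hq, (hrs m).1, (hrs m).2⟩
      · intro q b b' h1 h2 h3
        obtain ⟨-, hb, hbe⟩ := (hmem q b).1 h1
        obtain ⟨-, hb', hbe'⟩ := (hmem q b').1 h2
        obtain ⟨n, -, hn, hbn⟩ := hsb b hb hbe
        obtain ⟨n', -, hn', hbn'⟩ := hsb b' hb' hbe'
        rw [hn, hn'] at h3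
        rw [hbn, hbn', nS_inj.1 h3]
      · intro q b h1 n hn
        obtain ⟨hq, hb, hbe⟩ := (hmem q b).1 h1
        obtain ⟨m, hSq, hm, -⟩ := hsb b hb hbe
        rw [hm] at hn
        obtain ⟨l, hl, rfl⟩ := lt_of_mem hn
        obtain ⟨h5, h6, -⟩ := (AF.2.2.2.2.1 m b hSq).2.2.2.2.2 l hl.le
        exact (hmem q _).2 ⟨hq, (AF.1 _).2 ⟨l, h5⟩, fun _ hx => hbe (h6 hx)⟩
      · intro q hq b hb h
        obtain ⟨q'', -, -, h2⟩ := h q hq (BD.2.2.2.1 D.L ρ q hq).1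
        exact (hmem q b).2 ⟨hq, hb, ((hmem q'' b).1 h2).2.2⟩
    have hNk : D.N (knm D.L ρ e) := by
      have h : Tm ZFm (fun _ v => (ZFSet.prod (Pos (v 0) (v 1)) sq).sep fun z => snd z ⊆ kc e) :=
        Tm.sep (R := fun _ v => snd (v 0) ⊆ kc e) (Dfb.subset (Tm.snd (Tm.var 0)) (tkc e))
          (Tm.prod tPos AF.2.2.1)
      exact h.1 D.N hkN (cons D.L fun _ => ρ) (In.cons (fun _ => hN) hNL)
    refine ⟨hNk, hNm, fun G hG => ?_⟩
    have hK := (BK D hD ρ G hN hc hG).1 ρ _ hN (fun _ h => h) hTr hNk hNm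
    refine AG.2.2.2.1 _ _ hK.1 hke fun n => ⟨n, le_rfl, ?_⟩
    obtain ⟨q, -, hq⟩ := hK.2.2.2.2.1 n
    obtain ⟨-, -, h2⟩ := (hmem q _).1 hq
    exact (AG.2.1 _ n _ hke ((AG.1 _ hK.1).2.2.1 n).2.1).1 h2
  · -- (5)
    intro k hk
    have hmem : ∀ q b, ZFSet.pair q b ∈ cn D.L ρ k ↔
        (q ∈ Pos D.L ρ ∧ b ∈ sq) ∧ (b = ∅ ∨ k ∈ dm q ∧ b ⊆ fst (app q k)) := by
      intro q b
      unfold cn
      rw [ZFSet.mem_sep, ZFSet.pair_mem_prod, snd_pair, fst_pair]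
    have hsg : ∀ q ∈ Pos D.L ρ, k ∈ dm q → fst (app q k) ∈ sq := fun q hq hkq =>
      (((BC.2.2.2.1 D.L ρ q).1 hq).2.2 k hkq).s
    have hrf : ∀ q ∈ Pos D.L ρ, Le q q := fun q hq => (BD.2.2.2.1 D.L ρ q hq).1
    have hNm : Nam D.L ρ (cn D.L ρ k) := by
      refine ⟨?_, ?_, ?_, ?_, ?_, ?_⟩
      · intro z hz
        obtain ⟨q, hq, b, hb, hz'⟩ := ZFSet.mem_prod.1 (ZFSet.mem_sep.1 hz).1
        exact ⟨q, hq, b, hb, hz'⟩
      · intro q b hqb q' hq' hle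
        obtain ⟨⟨-, h2⟩, h3⟩ := (hmem q b).1 hqb
        refine (hmem q' b).2 ⟨⟨hq', h2⟩, h3.imp id fun h4 => ?_⟩
        obtain ⟨h5, h6⟩ := hle k h4.1
        exact ⟨h5, fun _ hx => h6.s (h4.2 hx)⟩
      · intro n hn q hq
        obtain ⟨m, rfl⟩ := mem_om.1 hn
        obtain ⟨q', hq', hle, hA⟩ := (BI D.L ρ hc).2.2.1 q {k} m hq
          (by
            have e : (({k} : V) : Set V) = {k} := by
              ext x
              simp
            rw [e]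
            exact Set.finite_singleton k)
          (fun x hx => by rw [ZFSet.mem_singleton] at hx; rw [hx]; exact hk)
        obtain ⟨hkd, hm⟩ := hA k (ZFSet.mem_singleton.2 rfl)
        obtain ⟨l, hl⟩ := (AF.1 _).1 (hsg q' hq' hkd)
        have hF5 := AF.2.2.2.2.1 l _ hl
        rw [hF5.2.2.1, mem_nS] at hm
        obtain ⟨h5, h6, -⟩ := hF5.2.2.2.2.2 m hm.le
        refine ⟨q', hq', hle, rs (fst (app q' k)) (nS m), ?_, ?_⟩
        · exact (AF.2.2.2.2.1 m _ h5).2.2.1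
        · exact (hmem q' _).2 ⟨⟨hq', (AF.1 _).2 ⟨m, h5⟩⟩, Or.inr ⟨hkd, h6⟩⟩
      · intro q b b' h1 h2 h3
        obtain ⟨⟨hq, hb⟩, h4⟩ := (hmem q b).1 h1
        obtain ⟨⟨-, hb'⟩, h5⟩ := (hmem q b').1 h2
        obtain ⟨n, hn⟩ := (AF.1 b).1 hb
        obtain ⟨n', hn'⟩ := (AF.1 b').1 hb'
        have hd := (AF.2.2.2.2.1 n b hn).2.2.1
        have hd' := (AF.2.2.2.2.1 n' b' hn').2.2.1
        have hnn : n = n' := nS_inj.1 (by rw [← hd, ← hd', h3])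
        subst hnn
        have hz : ∀ c : V, Sq 0 c → c = ∅ := by
          intro c hc0
          have h6 : c ⊆ ZFSet.prod (nS 0) hf := hc0.1
          rw [nS_zero] at h6
          ext x
          constructor
          · intro hx
            obtain ⟨a, ha, -⟩ := ZFSet.mem_prod.1 (h6 hx)
            exact absurd ha (ZFSet.notMem_empty a)
          · intro hx
            exact absurd hx (ZFSet.notMem_empty x)
        have hn0 : ∀ c : V, dm c = nS n → c = ∅ → n = 0 := by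
          intro c h6 h7
          rw [h7, dm_empty, ← nS_zero] at h6
          exact (nS_inj.1 h6).symm
        rcases h4 with h4 | ⟨hkq, h4⟩
        · have h6 := hn0 b hd h4
          rw [h6] at hn'
          rw [h4, hz b' hn']
        · rcases h5 with h5 | ⟨-, h5⟩
          · have h6 := hn0 b' hd' h5
            rw [h6] at hn
            rw [h5, hz b hn]
          · obtain ⟨l, hl⟩ := (AF.1 _).1 (hsg q hq hkq)
            rw [AF.2.2.2.2.2.2.2.1 n b l _ hn hl h4, AF.2.2.2.2.2.2.2.1 n b' l _ hn' hl h5]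
      · intro q b h1 n hn
        obtain ⟨⟨hq, hb⟩, h2⟩ := (hmem q b).1 h1
        obtain ⟨m, hSq⟩ := (AF.1 b).1 hb
        have hF5 := AF.2.2.2.2.1 m b hSq
        rcases h2 with h2 | ⟨hkq, h2⟩
        · rw [h2, dm_empty] at hn
          exact absurd hn (ZFSet.notMem_empty n)
        · rw [hF5.2.2.1] at hn
          obtain ⟨l, hl, rfl⟩ := lt_of_mem hn
          obtain ⟨h5, h6, -⟩ := hF5.2.2.2.2.2 l hl.le
          exact (hmem q _).2 ⟨⟨hq, (AF.1 _).2 ⟨l, h5⟩⟩, Or.inr ⟨hkq, fun _ hx => h2 (h6 hx)⟩⟩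
      · intro q hq b hb h
        by_contra hcon
        have hcon' : ¬ (b = ∅ ∨ k ∈ dm q ∧ b ⊆ fst (app q k)) := fun h' =>
          hcon ((hmem q b).2 ⟨⟨hq, hb⟩, h'⟩)
        rw [not_or] at hcon'
        obtain ⟨hbne, hbq⟩ := hcon'
        obtain ⟨m, hm⟩ := (AF.1 b).1 hb
        have hmpos : 0 < m := by
          rcases Nat.eq_zero_or_pos m with h0 | h0
          · subst h0
            exfalso
            apply hbne
            have h6 : b ⊆ ZFSet.prod (nS 0) hf := hm.1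
            rw [nS_zero] at h6
            ext x
            constructor
            · intro hx
              obtain ⟨a, ha, -⟩ := ZFSet.mem_prod.1 (h6 hx)
              exact absurd ha (ZFSet.notMem_empty a)
            · intro hx
              exact absurd hx (ZFSet.notMem_empty x)
          · exact h0
        -- the key claim
        have hkey : ∃ q2 ∈ Pos D.L ρ, Le q2 q ∧ k ∈ dm q2 ∧ ∃ l : ℕ, l < m ∧ ∃ n : ℕ, l < n ∧
            Sq n (fst (app q2 k)) ∧ app (fst (app q2 k)) (nS l) ≠ app b (nS l) := by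
          have hext : ∀ q1 ∈ Pos D.L ρ, Le q1 q → k ∈ dm q1 → ∀ n : ℕ, n < m →
              Sq n (fst (app q1 k)) → ∃ q2 ∈ Pos D.L ρ, Le q2 q ∧ k ∈ dm q2 ∧
              ∃ l : ℕ, l < m ∧ ∃ n : ℕ, l < n ∧
              Sq n (fst (app q2 k)) ∧ app (fst (app q2 k)) (nS l) ≠ app b (nS l) := by
            intro q1 hq1 hle1 hk1 n hn hSn
            obtain ⟨q2, hq2, hle2, hd2, hv2, -⟩ := (BI D.L ρ hc).2.1 q1 k (app b (nS n)) n hq1 hk1
              (AF.2.2.2.2.1 n _ hSn).2.2.1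
            have hk2 : k ∈ dm q2 := (hle2 k hk1).1
            obtain ⟨n2, hn2⟩ := (AF.1 _).1 (hsg q2 hq2 hk2)
            have e2 : n2 = n + 1 := nS_inj.1 (by rw [← (AF.2.2.2.2.1 n2 _ hn2).2.2.1, hd2])
            exact ⟨q2, hq2, BD.2.2.2.2.1 D.L ρ q q1 q2 hq hq1 hq2 hle2 hle1, hk2, n, hn, n2,
              by omega, hn2, hv2⟩
          by_cases hkq : k ∈ dm q
          · obtain ⟨n, hn⟩ := (AF.1 _).1 (hsg q hq hkq)
            by_cases hl : ∃ l, l < m ∧ l < n ∧ app (fst (app q k)) (nS l) ≠ app b (nS l)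
            · obtain ⟨l, h1, h2, h3⟩ := hl
              exact ⟨q, hq, hrf q hq, hkq, l, h1, n, h2, hn, h3⟩
            · have hnm : n < m := by
                by_contra hge
                apply hbq
                refine ⟨hkq, (AF.2.2.2.2.2.2.1 m b n _ hm hn).2 ⟨by omega, fun l hlm => ?_⟩⟩
                by_contra hne
                exact hl ⟨l, hlm, by omega, fun h' => hne h'.symm⟩
              exact hext q hq (hrf q hq) hkq n hnm hn
          · obtain ⟨h1, h2⟩ := BH.1 D.L ρ q k hc hq hk hkq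
            have hup := BC.2.2.2.2.2.2.2.2.2.2 q k (ZFSet.pair ∅ ∅)
              ((BC.2.2.2.1 D.L ρ q).1 hq).1
            have h3 : k ∈ dm (upd q k (ZFSet.pair ∅ ∅)) := by
              rw [hup.2.1]
              exact ZFSet.mem_insert _ _
            refine hext _ h1 h2 h3 0 hmpos ?_
            rw [hup.2.2.1, fst_pair]
            exact AF.2.1
        obtain ⟨q2, hq2, hle2, hk2, l, hlm, n, hln, hSn, hne⟩ := hkey
        obtain ⟨q3, hq3, hle3, hb3⟩ := h q2 hq2 hle2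
        obtain ⟨hk3, hQ⟩ := hle3 k hk2
        obtain ⟨-, h4⟩ := (hmem q3 b).1 hb3
        rcases h4 with h4 | ⟨-, h4⟩
        · exact hbne h4
        · obtain ⟨t, ht⟩ := (AF.1 _).1 (hsg q3 hq3 hk3)
          have e1 := ((AF.2.2.2.2.2.2.1 m b t _ hm ht).1 h4).2 l hlm
          have e2 := ((AF.2.2.2.2.2.2.1 n _ t _ hSn ht).1 hQ.s).2 l hln
          exact hne (e2.trans e1.symm)
    have hNk : D.N (cn D.L ρ k) := by
      exact tcn.1 D.N hkN (cons D.L (cons ρ fun _ => k))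
        (In.cons (In.cons (fun _ => hkN.trans _ hN k hk) hN) hNL)
    refine ⟨hNk, hNm, fun G hG => ?_⟩
    have hBK := BK D hD ρ G hN hc hG
    have hK := hBK.1 ρ _ hN (fun _ h => h) hTr hNk hNm
    have hC := hBK.2 k hk
    refine AG.2.2.2.1 _ _ hK.1 hC.1 fun n => ⟨n, le_rfl, ?_⟩
    obtain ⟨q, hqG, hq⟩ := hK.2.2.2.2.1 n
    obtain ⟨-, h2⟩ := (hmem q _).1 hq
    refine (AG.2.1 _ n _ hC.1 ((AG.1 _ hK.1).2.2.1 n).2.1).1 ?_
    rcases h2 with h2 | ⟨hkq, h2⟩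
    · rw [h2]
      exact fun x hx => absurd hx (ZFSet.notMem_empty x)
    · exact fun _ hx => (hC.2.2.2.1 q hqG hkq).1 (h2 hx)
  · -- (6)
    intro s Y0 hNs hs ht hN0 hY0
    have hf : Tm ZFm (fun _ v => ev (v 0) (v 1)) := tev
    obtain ⟨Y, h1, h2, h3⟩ := full BJ BN hD hN hc hf (v := fun _ => Y0)
      (fun _ => hN0) (by
      intro G hG
      exact ((BK D hD ρ G hN hc hG).1 s Y0 hNs hs ht hN0 hY0).1)
    exact ⟨Y, h1, h2, fun G hG => h3 G hG⟩

end SE
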