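import Pool.Agent.H9.SE.TarL
import Pool.Agent.H7.SF.ReflS

/-! LB: the absolute definition of the Luzin set. -/

set_option linter.unusedVariables false

open Ordinal Order Set
open scoped ZFSet

namespace SE

open SF CAA

theorem lb_ix {ix : V → V → V} (hix : IsIx ix) {M : V → Prop} (k : ZFm M) {ρ ξ : Ordinal.{0}}
    (hρ : M ρ.toZFSet) (hξ : M ξ.toZFSet) : M (ix ∅ (ZFSet.pair ρ.toZFSet ξ.toZFSet)) := by
  have h := hix.1.1 M k (cons ∅ fun _ => ZFSet.pair ρ.toZFSet ξ.toZFSet) (by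
    intro i
    rcases i with _ | i
    · exact k.mempty
    · exact k.mpair hρ hξ)
  exact h

theorem t_lb (h3 : T_LA3) (h4 : T_LA4) (h5 : T_LA5) : T_LB := by
  intro ix hix τ μ κ g
  obtain ⟨p1, p2, p3⟩ := h5 ix hix τ μ κ g
  refine ⟨?_, ?_⟩
  · rintro M k hM l hl ⟨η, β, ρ, ξ, hη, hβ, hρ, hξ, ad, lst, hlv⟩
    have hl' : l = ix ∅ (ZFSet.pair ρ.toZFSet ξ.toZFSet) := hlv
    have ad' : Ad (· ∈ LA ∅ τ) η := by
      obtain ⟨b, hb, hc⟩ := ad.c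
      exact ⟨ad.z, ad.a, b, (g.ord b).2 (hM b hb), hc⟩
    have lz : Lz ix η l := ⟨β, ρ, ξ, lst, hl'⟩
    obtain ⟨_, _, l0, _, hl0, _, _, hu⟩ := p2 η ad'
    refine ZFSet.mem_sep.2 ⟨?_, η, ad', lz⟩
    rw [hu l lz]
    exact hl0
  · intro l hl
    obtain ⟨hlμ, η, ad, β, ρ, ξ, lst, hlv⟩ := ZFSet.mem_sep.1 hl
    obtain ⟨hημ, _⟩ := p2 η ad
    obtain ⟨η', hηη', hη'μ, ad'⟩ := p1 η hημ
    obtain ⟨_, hord', _⟩ := p2 η' ad'
    have hmem : LA ∅ η ∈ LA ∅ η' :=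
      ad'.z.mLh (a := ∅) (A := ∅) ad'.z.mempty ad'.z.mempty ((hord' η).2 hηη')
    obtain ⟨β', ρ', ξ', hβ', hρ', hξ', lst', _⟩ := h4 ix hix η' ad'.z hord' η hmem (ad'.a _ hmem)
    obtain ⟨e1, e2, e3⟩ := (h3 ix (LA ∅ η)).2 β ρ ξ β' ρ' ξ' lst lst'
    subst e1 e2 e3
    obtain ⟨b, hb, hc⟩ := ad.c
    have hbτ : b < τ := (g.ord b).1 hb
    have hμτ : μ < τ := g.μκ.trans g.κτ
    have hη'τ : η' < τ := hη'μ.trans hμτ
    refine ⟨max η' b, max_lt hη'τ hbτ, ?_⟩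
    intro M k hM
    have m1 : ∀ α : Ordinal.{0}, α ≤ η' → M α.toZFSet := fun α h => k.mle hM (h.trans (le_max_left _ _))
    have mρ := m1 ρ hρ'.le
    have mξ := m1 ξ hξ'.le
    refine ⟨?_, η, β, ρ, ξ, m1 η hηη'.le, m1 β hβ'.le, mρ, mξ, ?_, lst, hlv⟩
    · rw [hlv]
      exact lb_ix hix k mρ mξ
    · exact ⟨ad.z, ad.a, b, k.mle hM (le_max_right _ _), hc⟩

end SE
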